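import Pool.Agent.Work.MP_db9399_px_helper35.TR
import Pool.Agent.Work.MP_db9399_px_helper99.FN
import Pool.Agent.Work.MP_db9399_px_helper99.BALL
import Pool.Agent.Work.MP_db9399_px_helper83.SAMP
import Pool.Agent.Work.MP_db9399_px_helper83.EVS
import Pool.Agent.Work.MP_db9399_px_helper89.WALK
import Pool.Agent.Work.MP_db9399_px_helper89.LIN
import Pool.Agent.Work.MP_db9399_px_helper89.LPKV
import Pool.Agent.Work.MP_db9399_px_helper31.PBM
import Pool.Agent.Work.MP_db9399_px_helper31.UNI
import Pool.Agent.Work.MP_db9399_px_helper31.CNT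
import Pool.Agent.Work.MP_db9399_px_helper50.EVF
import Pool.Agent.Work.MP_db9399_px_helper50.LPKX
import Pool.Agent.Work.MP_db9399_px_helper23.LNUM
import Pool.Agent.Work.MP_db9399_px_helper23.PX1
import Pool.Agent.Work.MP_db9399_px_helper6.LLX
import Pool.Agent.Work.MP_db9399_px_helper6.PARTX

/-! # PARTX, unconditional -/

set_option autoImplicit false

namespace Pool.Agent.Work.MP_db9399_px

universe u

theorem lin_holds : Stmt_LIN.{u} := helper89.stmt_LIN helper31.stmt_PBM helper31.stmt_UNI

theorem llx_holds : Stmt_LLX.{u} :=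
  helper6.stmt_LLX helper99.stmt_BALL
    (helper50.LPKX.stmt_LPKX
      (helper50.stmt_EVF helper31.stmt_PBM helper31.stmt_UNI lin_holds)
      helper31.stmt_CNT helper99.stmt_BALL)
    (helper89.stmt_LPKV lin_holds (helper83.stmt_EVS helper31.stmt_PBM helper31.stmt_UNI))
    helper23.stmt_LNUM

/-- partition of an expander into atoms -/
theorem partx : Stmt_PARTX.{u} :=
  helper6.stmt_PARTX (helper23.stmt_PX1 helper99.stmt_FN
    (helper35.stmt_TR helper83.stmt_SAMP helper89.stmt_WALK) llx_holds)

end Pool.Agent.Work.MP_db9399_px
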