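import Pool.Agent.Work.MP_db9399_px_helper35.TRC

/-! # Block TR: from a violating pair to a violating code -/

set_option autoImplicit false
set_option linter.unusedSectionVars false

namespace Pool.Agent.Work.MP_db9399_px.helper35

open Finset Classical
open Pool.Agent.Work.MP_db9399_all (nb pr DepOnI PackI)

universe u

theorem sum_nb_eq {V : Type u} [Fintype V] {G : SimpleGraph V} (A D : Finset V) :
    ∑ w ∈ D, ((nb G w ∩ A).card : ℝ) = ee G A D := by
  rw [ee_symm]; rfl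

theorem ee_nonneg {V : Type u} [Fintype V] {G : SimpleGraph V} {A D : Finset V} :
    0 ≤ ee G A D := Finset.sum_nonneg (fun _ _ => Nat.cast_nonneg _)

theorem sqrt_bound {κ θ c : ℝ} (hκ : 0 < κ) (hc : 0 < c) (h : (c / κ) ^ 2 ≤ θ) :
    18 / √θ ≤ 18 / c * κ := by
  have h1 : c / κ ≤ √θ := Real.le_sqrt_of_sq_le h
  have h2 : 0 < c / κ := by positivity
  calc 18 / √θ ≤ 18 / (c / κ) := by
        apply div_le_div_of_nonneg_left (by norm_num) h2 h1
    _ = 18 / c * κ := by field_simp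

theorem sqrt_bound1 {κ θ : ℝ} (hκ : 0 < κ) (h : (1000 / κ) ^ 2 ≤ θ) :
    18 / √θ ≤ 18 / 1000 * κ := by
  have h0 : (0 : ℝ) < 1000 := by norm_num
  exact sqrt_bound hκ h0 h

theorem sqrt_bound2 {κ θ : ℝ} (hκ : 0 < κ) (h : (900 / κ) ^ 2 ≤ θ) :
    18 / √θ ≤ 18 / 900 * κ := by
  have h0 : (0 : ℝ) < 900 := by norm_num
  exact sqrt_bound hκ h0 h

theorem stmt_TR (hSAMP : Stmt_SAMP.{u}) (hWALK : Stmt_WALK.{u}) : Stmt_TR.{u} := by
  intro p κ hp hp1 hκ hκ1
  refine ⟨(1000 / κ) ^ 2, κ * p / 200, ?_, by positivity, ?_⟩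
  · have : (1 : ℝ) ≤ 1000 / κ := by rw [le_div_iff₀ hκ]; linarith
    exact one_le_pow₀ this
  intro V _ G d q a0 g δ Θ C D hg0 hg hδ0 hδ hΘ hd hq hq1 hq2 hexp hdeg hC hD A B hAC hBD hAa hviol
  have hΘ1 : (1 : ℝ) ≤ Θ := by
    have : (1 : ℝ) ≤ 1000 / κ := by rw [le_div_iff₀ hκ]; linarith
    exact (one_le_pow₀ this).trans hΘ
  have hdR : (1 : ℝ) ≤ d := by exact_mod_cast hd
  have hqR : (1 : ℝ) ≤ q := by exact_mod_cast hq
  have hq0 : (0 : ℝ) < q := by linarith
  set P : ℝ := p * d with hPdef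
  have hP : 0 < P := by positivity
  have hPd : P ≤ d := mul_le_of_le_one_left (by linarith) hp1
  have hδs : δ ≤ 1 / 20000 := by
    have h1 : κ * p ≤ 1 / 100 * 1 := mul_le_mul hκ1 hp1 hp.le (by norm_num)
    linarith
  have hδκ : δ ≤ κ / 200 := by
    have h1 : κ * p ≤ κ * 1 := mul_le_mul_of_nonneg_left hp1 hκ.le
    linarith
  have hDl : ∀ v, (1 - δ) * P ≤ ((nb G v ∩ D).card : ℝ) := fun v => by
    have := (abs_le.1 (hD v)).1; linarith
  have hv : Viol G P g C D A B := ⟨hAC, hBD, by unfold Phi; linarith⟩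
  obtain ⟨A0, hA0c, hv0, hmin⟩ := exists_min G P g hv
  have hA0 : A0.Nonempty := min_nonempty hP hv0
  have ha : (0 : ℝ) < A0.card := by exact_mod_cast Finset.card_pos.2 hA0
  set a : ℝ := (A0.card : ℝ) with hadef
  have hδP : 0 ≤ δ * P := by positivity
  -- first sample
  set θ1 : ℝ := P / (2 * q) with hθ1def
  have hθ1q : θ1 * q = P / 2 := by rw [hθ1def]; field_simp
  have hθ1 : Θ ≤ θ1 := by
    rw [hθ1def, le_div_iff₀ (by positivity)]; linarith
  have hs1 : ∑ w ∈ D, ((nb G w ∩ A0).card : ℝ) = ee G A0 D := sum_nb_eq A0 D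
  have hee := ee_le (A := A0) hD
  have hpos1 : 0 < ∑ w ∈ D, (nb G w ∩ A0).card := by
    have : (0 : ℝ) < ((∑ w ∈ D, (nb G w ∩ A0).card : ℕ) : ℝ) := by
      push_cast
      rw [hs1]
      refine lt_of_lt_of_le ?_ hee.2
      have : 0 < 1 - δ := by linarith
      positivity
    exact_mod_cast this
  clear_value θ1
  obtain ⟨R, hRA, hRc, hRmis, hRmiss⟩ := hSAMP (W := V) A0 D (fun w => nb G w ∩ A0) q θ1 hq
    (by linarith) hA0 (fun w _ => Finset.inter_subset_right) hpos1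
  have hmis1 : mis θ1 q D (fun w => nb G w ∩ A0) R ≤ 19 / 1000 * κ * P * a := by
    have h1 : mis θ1 q D (fun w => nb G w ∩ A0) R ≤ 18 / √θ1 * ee G A0 D := by
      rw [← hs1]; exact hRmis
    have h2 : 18 / √θ1 ≤ 18 / 1000 * κ := sqrt_bound1 hκ (hΘ.trans hθ1)
    have h3 : 0 ≤ ee G A0 D := ee_nonneg
    have h4 : 18 / √θ1 * ee G A0 D ≤ 18 / 1000 * κ * ((1 + δ) * P * a) :=
      mul_le_mul h2 hee.1 h3 (by positivity)
    have h5 : 18 / 1000 * κ * ((1 + δ) * P * a) ≤ 19 / 1000 * κ * P * a := by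
      have h6 : 0 ≤ κ * P * a := mul_nonneg (mul_nonneg hκ.le hP.le) ha.le
      have h7 : δ * (κ * P * a) ≤ 1 / 20000 * (κ * P * a) := mul_le_mul_of_nonneg_right hδs h6
      linarith
    linarith
  set Ms : Finset V := D.filter (fun w => θ1 * q < ((nb G w ∩ A0).card : ℝ) ∧
    nb G w ∩ A0 ∩ R = ∅) with hMs
  have mMs : ∀ w, w ∈ Ms ↔ w ∈ D ∧ θ1 * q < ((nb G w ∩ A0).card : ℝ) ∧ nb G w ∩ A0 ∩ R = ∅ :=
    fun w => Finset.mem_filter
  have hMsc : (Ms.card : ℝ) ≤ 3 * Real.exp (-θ1) / (θ1 * q) *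
      ∑ w ∈ D, ((nb G w ∩ A0).card : ℝ) := hRmiss
  clear_value Ms
  have hMs1 : ∀ w ∈ Ms, ∃ t, t ∈ A0 ∧ G.Adj w t := by
    intro w hw
    rw [mMs] at hw
    have h1 : (0 : ℝ) < ((nb G w ∩ A0).card : ℝ) := by
      refine lt_trans ?_ hw.2.1
      rw [hθ1q]; positivity
    have h2 : 0 < (nb G w ∩ A0).card := by exact_mod_cast h1
    obtain ⟨t, ht⟩ := Finset.card_pos.1 h2
    rw [mem_inter, mem_nb] at ht
    exact ⟨t, ht.2, ht.1⟩
  choose! tf htf using hMs1
  set T : Finset V := Ms.image tf with hT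
  have hTA : T ⊆ A0 := by
    intro t ht
    rw [hT, mem_image] at ht
    obtain ⟨w, hw, rfl⟩ := ht
    exact (htf w hw).1
  have hTc : (T.card : ℝ) * q ≤ a := by
    have h1 : (T.card : ℝ) ≤ Ms.card := by exact_mod_cast Finset.card_image_le
    have h2 : (Ms.card : ℝ) ≤ 3 * Real.exp (-θ1) / (θ1 * q) * ee G A0 D := by
      rw [← hs1]; exact hMsc
    rw [hθ1q] at h2
    have h3 : Real.exp (-θ1) ≤ 1 / (4 * d) := by
      have e1 : Real.exp (-θ1) ≤ Real.exp (-Θ) := Real.exp_le_exp.2 (by linarith)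
      have e2 : Real.exp (-Θ) ≤ 1 / (4 * d) := by
        rw [Real.exp_neg, ← one_div]
        exact div_le_div_of_nonneg_left (by norm_num) (by positivity) hexp
      linarith
    have h4 : 3 * Real.exp (-θ1) / (P / 2) * ee G A0 D ≤
        3 * (1 / (4 * d)) / (P / 2) * ((1 + δ) * P * a) := by
      have h3' : 0 ≤ ee G A0 D := ee_nonneg
      apply mul_le_mul _ hee.1 h3' (by positivity)
      apply div_le_div_of_nonneg_right _ (by positivity)
      linarith
    have h5 : 3 * (1 / (4 * (d : ℝ))) / (P / 2) * ((1 + δ) * P * a) = 3 / 2 * (1 + δ) * a / d := by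
      field_simp
      ring
    have h6 : (q : ℝ) ≤ d / 2 := by
      have e1 : 1 * (q : ℝ) ≤ Θ * q := mul_le_mul_of_nonneg_right hΘ1 hq0.le
      linarith
    have h7 : (T.card : ℝ) ≤ 3 / 2 * (1 + δ) * a / d := by linarith
    have h8 : (T.card : ℝ) * q ≤ 3 / 2 * (1 + δ) * a / d * (d / 2) :=
      mul_le_mul h7 h6 hq0.le (by positivity)
    have h9 : 3 / 2 * (1 + δ) * a / d * ((d : ℝ) / 2) = 3 / 4 * (1 + δ) * a := by
      field_simp
      ring
    rw [h9] at h8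
    have e1 : δ * a ≤ 1 / 20000 * a := mul_le_mul_of_nonneg_right hδs ha.le
    linarith
  set B' : Finset V := hit G θ1 R ∩ D with hB'
  have hB'D : B' ⊆ D := Finset.inter_subset_right
  have hph1 : Phi G P g D A0 B' ≤ 19 / 1000 * κ * P * a := by
    have := step1 (G := G) (P := P) (g := g) (D := D) hRA hθ1q
    have h2 := hv0.2.2
    linarith
  set b : ℝ := (B'.card : ℝ) with hbdef
  have hb0 : 0 ≤ b := Nat.cast_nonneg _
  have hb1 : b ≤ (1 + 2 * g + 38 / 1000 * κ) * a := by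
    have h1 := (Phi_ge (G := G) (P := P) (g := g) (D := D) (A := A0) (B := B')).trans hph1
    have h2 : P * b ≤ P * ((1 + 2 * g + 38 / 1000 * κ) * a) := by linarith
    exact le_of_mul_le_mul_left h2 hP
  have hb2 : (1 / 2 - g - δ - 19 / 1000 * κ) * a ≤ (1 / 2 + δ) * b := by
    have h1 := (Phi_ge' (G := G) (P := P) (g := g) hB'D hv0.1 hC hD).trans hph1
    have h2 : P * ((1 / 2 - g - δ - 19 / 1000 * κ) * a) ≤ P * ((1 / 2 + δ) * b) := by linarith
    exact le_of_mul_le_mul_left h2 hP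
  have hba : 46 / 100 * a ≤ (1 / 2 + δ) * b :=
    (mul_le_mul_of_nonneg_right (by linarith) ha.le).trans hb2
  have hbpos : 0 < b := by
    by_contra hcon
    push Not at hcon
    have : b = 0 := le_antisymm hcon hb0
    rw [this] at hba
    linarith
  have hb3 : 9 / 10 * a ≤ b := by
    have e1 : δ * b ≤ 1 / 20000 * b := mul_le_mul_of_nonneg_right hδs hb0
    linarith
  have hb4 : b ≤ 11 / 10 * a := hb1.trans (mul_le_mul_of_nonneg_right (by linarith) ha.le)
  have hB'ne : B'.Nonempty := by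
    rw [← Finset.card_pos]
    have e1 : (0 : ℝ) < (B'.card : ℝ) := hbpos
    exact Nat.cast_pos.1 e1
  -- second sample
  set θ2 : ℝ := (1 / 2 - g) * P / q with hθ2def
  have hθ2q : θ2 * q = (1 / 2 - g) * P := by rw [hθ2def]; field_simp
  have hθ2 : 9 / 10 * Θ ≤ θ2 := by
    rw [hθ2def, le_div_iff₀ hq0]
    have e1 : 15 / 32 * P ≤ (1 / 2 - g) * P := mul_le_mul_of_nonneg_right (by linarith) hP.le
    have e2 : 0 ≤ Θ * q := mul_nonneg (by linarith) hq0.le
    linarith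
  have hθ2' : (900 / κ) ^ 2 ≤ θ2 := by
    have h1 : (900 / κ) ^ 2 ≤ 9 / 10 * (1000 / κ) ^ 2 := by
      have e1 : (900 / κ) ^ 2 = 810000 * (1 / κ) ^ 2 := by ring
      have e2 : (1000 / κ) ^ 2 = 1000000 * (1 / κ) ^ 2 := by ring
      rw [e1, e2]
      have : 0 ≤ (1 / κ) ^ 2 := by positivity
      linarith
    linarith
  have hθ21 : 1 ≤ θ2 := by
    have : (1 : ℝ) ≤ 900 / κ := by rw [le_div_iff₀ hκ]; linarith
    exact (one_le_pow₀ this).trans hθ2'
  have hs2 : ∑ v ∈ C, ((nb G v ∩ B').card : ℝ) = ee G B' C := sum_nb_eq B' C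
  have hee2 := ee_le (A := B') hC
  have hpos2 : 0 < ∑ v ∈ C, (nb G v ∩ B').card := by
    have : (0 : ℝ) < ((∑ v ∈ C, (nb G v ∩ B').card : ℕ) : ℝ) := by
      push_cast
      rw [hs2]
      refine lt_of_lt_of_le ?_ hee2.2
      have : 0 < 1 - δ := by linarith
      positivity
    exact_mod_cast this
  obtain ⟨S, hSB, hSc, hSmis, -⟩ := hSAMP (W := V) B' C (fun v => nb G v ∩ B') q θ2 hq
    hθ21 hB'ne (fun w _ => Finset.inter_subset_right) hpos2
  have hmis2 : mis θ2 q C (fun v => nb G v ∩ B') S ≤ 23 / 1000 * κ * P * a := by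
    have h1 : mis θ2 q C (fun v => nb G v ∩ B') S ≤ 18 / √θ2 * ee G B' C := by
      rw [← hs2]; exact hSmis
    have h2 : 18 / √θ2 ≤ 18 / 900 * κ := sqrt_bound2 hκ hθ2'
    have h3 : 0 ≤ ee G B' C := ee_nonneg
    have h4 : 18 / √θ2 * ee G B' C ≤ 18 / 900 * κ * ((1 + δ) * P * b) :=
      mul_le_mul h2 hee2.1 h3 (by positivity)
    have h5 : 18 / 900 * κ * ((1 + δ) * P * b) ≤ 18 / 900 * κ * ((1 + δ) * P * (11 / 10 * a)) := by
      apply mul_le_mul_of_nonneg_left _ (by positivity)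
      apply mul_le_mul_of_nonneg_left hb4 (by positivity)
    have h6 : 18 / 900 * κ * ((1 + δ) * P * (11 / 10 * a)) ≤ 23 / 1000 * κ * P * a := by
      have e1 : 0 ≤ κ * P * a := mul_nonneg (mul_nonneg hκ.le hP.le) ha.le
      have e2 : δ * (κ * P * a) ≤ 1 / 20000 * (κ * P * a) := mul_le_mul_of_nonneg_right hδs e1
      linarith
    linarith
  have hSD : S ⊆ B' := hSB
  have hRB : B' = hit G θ1 R ∩ D := rfl
  have hst2 := step2 (G := G) (P := P) (g := g) (δ := δ) (q := q) (C := C) (D := D) (A := A0)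
    (B := B') (S := S) hSB hB'D hv0.1 hθ2q hD hδP
  set A2 : Finset V := hit G θ2 S ∩ C with hA2
  set a2 : ℝ := (A2.card : ℝ) with ha2def
  have ha20 : 0 ≤ a2 := Nat.cast_nonneg _
  have hpa2 : p * a2 ≤ 8 * a := by
    have h1 := hit_card hdeg θ2 S C
    have h2 : θ2 * a2 * q ≤ d * (3 * b) := by
      have : θ2 * a2 * q ≤ d * S.card * q := mul_le_mul_of_nonneg_right h1 hq0.le
      have h3 : (d : ℝ) * S.card * q ≤ d * (3 * b) := by
        have := mul_le_mul_of_nonneg_left hSc (by positivity : (0 : ℝ) ≤ d)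
        calc (d : ℝ) * S.card * q = d * (S.card * q) := by ring
          _ ≤ d * (3 * b) := this
      linarith
    have h3 : θ2 * a2 * q = (1 / 2 - g) * P * a2 := by
      calc θ2 * a2 * q = θ2 * q * a2 := by ring
        _ = _ := by rw [hθ2q]
    rw [h3, hPdef] at h2
    have h4 : (d : ℝ) * ((1 / 2 - g) * p * a2) ≤ d * (3 * b) := by
      calc (d : ℝ) * ((1 / 2 - g) * p * a2) = (1 / 2 - g) * (p * d) * a2 := by ring
        _ ≤ _ := h2
    have h5 := le_of_mul_le_mul_left h4 (by linarith : (0 : ℝ) < d)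
    have h6 : 0 ≤ p * a2 := mul_nonneg hp.le ha20
    have h7 : 15 / 32 * (p * a2) ≤ (1 / 2 - g) * (p * a2) :=
      mul_le_mul_of_nonneg_right (by linarith) h6
    linarith
  have hδa2 : δ * P * (a2 + a) ≤ 46 / 1000 * κ * P * a := by
    have h1 : δ * a2 ≤ κ / 200 * (p * a2) := by
      calc δ * a2 ≤ κ * p / 200 * a2 := mul_le_mul_of_nonneg_right hδ ha20
        _ = κ / 200 * (p * a2) := by ring
    have h2 : δ * a2 ≤ κ / 200 * (8 * a) := h1.trans (mul_le_mul_of_nonneg_left hpa2 (by positivity))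
    have h3 : δ * a ≤ κ / 200 * a := mul_le_mul_of_nonneg_right hδκ ha.le
    have h4 : δ * (a2 + a) ≤ 46 / 1000 * κ * a := by
      have e1 : 0 ≤ κ * a := mul_nonneg hκ.le ha.le
      linarith
    have h5 := mul_le_mul_of_nonneg_left h4 hP.le
    calc δ * P * (a2 + a) = P * (δ * (a2 + a)) := by ring
      _ ≤ P * (46 / 1000 * κ * a) := h5
      _ = _ := by ring
  have hph2 : Phi G P g D A2 B' ≤ 1 / 10 * κ * P * a := by
    have h0 : 0 ≤ κ * P * a := mul_nonneg (mul_nonneg hκ.le hP.le) ha.le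
    linarith
  have haa2 : a ≤ 3 * a2 := by
    have h1 := (Phi_ge (G := G) (P := P) (g := g) (D := D) (A := A2) (B := B')).trans hph2
    have h2 : P * (b / 2 - 1 / 10 * κ * a) ≤ P * ((1 / 2 + g) * a2) := by linarith
    have h3 := le_of_mul_le_mul_left h2 hP
    have e1 : (1 / 2 + g) * a2 ≤ 17 / 32 * a2 := mul_le_mul_of_nonneg_right (by linarith) ha20
    have e2 : κ * a ≤ 1 / 100 * a := mul_le_mul_of_nonneg_right hκ1 ha.le
    linarith
  -- the walk
  have hw : ∀ w ∈ optB G P D A0, ∃ r ∈ R ∪ T, G.Adj w r := by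
    intro w hw
    unfold optB at hw
    rw [mem_filter] at hw
    by_cases h : nb G w ∩ A0 ∩ R = ∅
    · have hwM : w ∈ Ms := by
        simp only [hMs, mem_filter]
        exact ⟨hw.1, by rw [hθ1q]; exact hw.2, h⟩
      exact ⟨tf w, Finset.mem_union_right _ (Finset.mem_image_of_mem tf hwM), (htf w hwM).2⟩
    · obtain ⟨r, hr⟩ := Finset.nonempty_iff_ne_empty.2 h
      simp only [mem_inter, mem_nb] at hr
      exact ⟨r, Finset.mem_union_left _ hr.2, hr.1.1⟩
  have hSnb : ∀ s ∈ S, ∃ r ∈ R, G.Adj s r := by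
    intro s hs
    have h1 := (Finset.mem_inter.1 (hSB hs)).1
    unfold hit at h1
    simp only [mem_filter, mem_univ, true_and] at h1
    have h2 : (0 : ℝ) < ((nb G s ∩ R).card : ℝ) := by linarith
    have h3 : 0 < (nb G s ∩ R).card := by exact_mod_cast h2
    obtain ⟨r, hr⟩ := Finset.card_pos.1 h3
    rw [mem_inter, mem_nb] at hr
    exact ⟨r, hr.2, hr.1⟩
  have hUne : (R ∪ T ∪ S).Nonempty := by
    obtain ⟨a1, ha1⟩ := hA0
    obtain ⟨w, hwB, -⟩ := min_nb hP hg (by linarith : δ ≤ 1 / 10) hDl hv0 hmin ha1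
    obtain ⟨r, hr, -⟩ := hw w hwB
    exact ⟨r, Finset.mem_union_left _ hr⟩
  obtain ⟨x, hx⟩ := hUne
  obtain ⟨w, hw1, hw0, hw2⟩ := hWALK G (R ∪ T ∪ S) x hx (fun U1 hU1 hx1 hne =>
    conn hP hg (by linarith : δ ≤ 1 / 10) hDl hv0 hmin hRA hTA hw hSnb U1 hU1 hx1 hne)
  refine ⟨A0, R, S, 8 * (R ∪ T ∪ S).card, w, hv0.1, hA0, hA0c.trans hAa, ⟨hw1, ?_⟩, ?_, ?_, haa2,
    ?_, ?_⟩
  · intro v hv
    refine hw2 v ?_
    rcases Finset.mem_union.1 hv with h | h
    · exact Finset.mem_union_left _ (Finset.mem_union_left _ h)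
    · exact Finset.mem_union_right _ h
  · have : 0 < (R ∪ T ∪ S).card := Finset.card_pos.2 ⟨x, hx⟩
    omega
  · have h1 : ((R ∪ T ∪ S).card : ℝ) ≤ R.card + T.card + S.card := by
      have := (Finset.card_union_le (R ∪ T) S).trans
        (Nat.add_le_add_right (Finset.card_union_le R T) _)
      exact_mod_cast this
    have h2 : ((R ∪ T ∪ S).card : ℝ) * q ≤ 74 / 10 * a := by
      have := mul_le_mul_of_nonneg_right h1 hq0.le
      linarith
    have h3 : ((8 * (R ∪ T ∪ S).card : ℕ) : ℝ) * P ≤ 8 * (R ∪ T ∪ S).card * (4 * Θ * q) := by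
      push_cast
      exact mul_le_mul_of_nonneg_left hq2 (by positivity)
    have h4 : 8 * ((R ∪ T ∪ S).card : ℝ) * (4 * Θ * q) = 32 * Θ * ((R ∪ T ∪ S).card * q) := by ring
    rw [h4] at h3
    have h5 : 32 * Θ * (((R ∪ T ∪ S).card : ℝ) * q) ≤ 32 * Θ * (74 / 10 * a) :=
      mul_le_mul_of_nonneg_left h2 (by positivity)
    have h6 : 0 ≤ Θ * a := mul_nonneg (by linarith) ha.le
    linarith
  · have h6 : 0 ≤ κ * a := mul_nonneg hκ.le ha.le
    linarith
  · have h1 := hph2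
    unfold Phi at h1
    have h0 : 0 ≤ κ * P * a := mul_nonneg (mul_nonneg hκ.le hP.le) ha.le
    linarith

end Pool.Agent.Work.MP_db9399_px.helper35
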