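import Pool.Agent.Work.MP_db9399_px.Interface

/-! # TR, part A: algebra of the functional and minimal violating pairs -/

set_option autoImplicit false

namespace Pool.Agent.Work.MP_db9399_px.helper35

open Finset Classical
open Pool.Agent.Work.MP_db9399_all (nb pr DepOnI PackI)

universe u

variable {V : Type u} [Fintype V] (G : SimpleGraph V)

theorem mem_nb {v w : V} : w ∈ nb G v ↔ G.Adj v w := by
  unfold nb; simp

theorem ee_symm (A B : Finset V) : ee G A B = ee G B A := by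
  unfold ee
  have h : ∀ X Y : Finset V, ∑ a ∈ X, ((nb G a ∩ Y).card : ℝ) =
      ∑ a ∈ X, ∑ b ∈ Y, if G.Adj a b then (1 : ℝ) else 0 := by
    intro X Y
    refine Finset.sum_congr rfl fun a _ => ?_
    rw [← Finset.sum_filter, Finset.sum_const, nsmul_eq_mul, mul_one]
    congr 2
    ext w
    simp [mem_nb, and_comm]
  rw [h, h, Finset.sum_comm]
  refine Finset.sum_congr rfl fun b _ => Finset.sum_congr rfl fun a _ => ?_
  simp [G.adj_comm]

/-- the functional minus `c |A|` -/
noncomputable def Phi (P g : ℝ) (D A B : Finset V) : ℝ := ff G (P / 2) D A B - g * P * A.card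

theorem card_inter_sdiff (N D B : Finset V) (hB : B ⊆ D) :
    ((N ∩ (D \ B)).card : ℝ) = ((N ∩ D).card : ℝ) - ((N ∩ B).card : ℝ) := by
  have h1 : N ∩ (D \ B) = (N ∩ D) \ (N ∩ B) := by
    ext x; simp only [mem_inter, mem_sdiff]; tauto
  have h2 : N ∩ B ⊆ N ∩ D := Finset.inter_subset_inter_left hB
  rw [h1, Finset.card_sdiff_of_subset h2, Nat.cast_sub (Finset.card_le_card h2)]

/-- `Phi` as a sum over `A` -/
theorem Phi_A (P g : ℝ) {D A B : Finset V} (hB : B ⊆ D) :
    Phi G P g D A B = ∑ a ∈ A, (((nb G a ∩ D).card : ℝ) - (nb G a ∩ B).card - (1 / 2 + g) * P) +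
      P / 2 * B.card := by
  unfold Phi ff ee
  rw [Finset.sum_congr rfl fun a _ => card_inter_sdiff (nb G a) D B hB]
  rw [Finset.sum_sub_distrib (f := fun a => ((nb G a ∩ D).card : ℝ) - (nb G a ∩ B).card)]
  rw [Finset.sum_const, nsmul_eq_mul]
  ring

/-- `Phi` as a sum over `D` -/
theorem Phi_D (P g : ℝ) {D A B : Finset V} (hB : B ⊆ D) :
    Phi G P g D A B = ∑ w ∈ D, (if w ∈ B then P / 2 else ((nb G w ∩ A).card : ℝ)) -
      (1 / 2 + g) * P * A.card := by
  unfold Phi ff
  rw [ee_symm]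
  unfold ee
  have h1 : ∑ w ∈ D, (if w ∈ B then P / 2 else ((nb G w ∩ A).card : ℝ)) =
      ∑ w ∈ D \ B, ((nb G w ∩ A).card : ℝ) + ∑ w ∈ B, (P / 2) := by
    rw [← Finset.sum_sdiff hB]
    congr 1
    · refine Finset.sum_congr rfl fun w hw => ?_
      rw [if_neg (Finset.mem_sdiff.1 hw).2]
    · exact Finset.sum_congr rfl fun w hw => by rw [if_pos hw]
  rw [h1, Finset.sum_const, nsmul_eq_mul]
  ring

/-- the violating pairs -/
def Viol (P g : ℝ) (C D A B : Finset V) : Prop := A ⊆ C ∧ B ⊆ D ∧ Phi G P g D A B < 0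

/-- optimal `B` -/
noncomputable def optB (P : ℝ) (D A : Finset V) : Finset V :=
  D.filter (fun w => P / 2 < ((nb G w ∩ A).card : ℝ))

theorem optB_sub (P : ℝ) (D A : Finset V) : optB G P D A ⊆ D := Finset.filter_subset _ _

theorem Phi_optB (P g : ℝ) {D A B : Finset V} (hB : B ⊆ D) :
    Phi G P g D A (optB G P D A) ≤ Phi G P g D A B := by
  rw [Phi_D G P g hB, Phi_D G P g (optB_sub G P D A)]
  refine sub_le_sub_right (Finset.sum_le_sum fun w hw => ?_) _
  unfold optB
  by_cases h1 : P / 2 < ((nb G w ∩ A).card : ℝ)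
  · rw [if_pos (by simp [hw, h1])]
    split_ifs
    · exact le_rfl
    · exact h1.le
  · rw [if_neg (by simp [h1])]
    push_neg at h1
    split_ifs
    · exact h1
    · exact le_rfl

/-- a violating pair with `|A|` minimal and `B` optimal -/
theorem exists_min (P g : ℝ) {C D A B : Finset V} (h : Viol G P g C D A B) :
    ∃ A0 : Finset V, A0.card ≤ A.card ∧ Viol G P g C D A0 (optB G P D A0) ∧
      ∀ A' B', Viol G P g C D A' B' → A0.card ≤ A'.card := by
  have hne : ((univ : Finset (Finset V × Finset V)).filter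
      (fun x => Viol G P g C D x.1 x.2)).Nonempty := ⟨(A, B), by simpa using h⟩
  obtain ⟨x, hx, hmin⟩ := Finset.exists_min_image _ (fun x : Finset V × Finset V => x.1.card) hne
  simp only [mem_filter, mem_univ, true_and] at hx hmin
  refine ⟨x.1, hmin (A, B) h, ⟨hx.1, optB_sub G P D _, ?_⟩, fun A' B' h' => hmin (A', B') h'⟩
  exact (Phi_optB G P g hx.2.1).trans_lt hx.2.2

section minimal
variable {G} {P g δ : ℝ} {C D A B : Finset V}

theorem min_nonempty (hP : 0 < P) (hv : Viol G P g C D A B) : A.Nonempty := by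
  rw [Finset.nonempty_iff_ne_empty]
  rintro rfl
  have h := hv.2.2
  rw [Phi_A G P g hv.2.1] at h
  simp only [Finset.sum_empty, zero_add] at h
  have : 0 ≤ P / 2 * (B.card : ℝ) := by positivity
  linarith

/-- every vertex of `A` has a neighbour in `B` -/
theorem min_nb (hP : 0 < P) (hg : g ≤ 1 / 32) (hδ : δ ≤ 1 / 10)
    (hD : ∀ v, (1 - δ) * P ≤ ((nb G v ∩ D).card : ℝ)) (hv : Viol G P g C D A B)
    (hmin : ∀ A' B', Viol G P g C D A' B' → A.card ≤ A'.card) {a : V} (ha : a ∈ A) :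
    ∃ w ∈ B, G.Adj a w := by
  by_contra hcon
  push_neg at hcon
  have h0 : nb G a ∩ B = ∅ := by
    rw [Finset.eq_empty_iff_forall_notMem]
    intro w hw
    rw [mem_inter, mem_nb] at hw
    exact hcon w hw.2 hw.1
  have h1 : Viol G P g C D (A.erase a) B := by
    refine ⟨(Finset.erase_subset _ _).trans hv.1, hv.2.1, ?_⟩
    have h2 := hv.2.2
    rw [Phi_A G P g hv.2.1] at h2 ⊢
    rw [← Finset.add_sum_erase A _ ha, h0] at h2
    have h3 := hD a
    simp only [Finset.card_empty, Nat.cast_zero, sub_zero] at h2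
    nlinarith
  have h4 := hmin _ _ h1
  have h5 := Finset.card_erase_lt_of_mem ha
  omega

theorem Phi_split (hB : B ⊆ D) {A1 A2 B1 B2 : Finset V} (hA : A = A1 ∪ A2) (hAd : Disjoint A1 A2)
    (hBu : B = B1 ∪ B2) (hBd : Disjoint B1 B2) (h12 : ∀ a ∈ A1, ∀ w ∈ B2, ¬ G.Adj a w)
    (h21 : ∀ a ∈ A2, ∀ w ∈ B1, ¬ G.Adj a w) :
    Phi G P g D A B = Phi G P g D A1 B1 + Phi G P g D A2 B2 := by
  have hB1 : B1 ⊆ D := (Finset.subset_union_left.trans hBu.symm.subset).trans hB
  have hB2 : B2 ⊆ D := (Finset.subset_union_right.trans hBu.symm.subset).trans hB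
  rw [Phi_A G P g hB, Phi_A G P g hB1, Phi_A G P g hB2, hA, Finset.sum_union hAd, hBu,
    Finset.card_union_of_disjoint hBd]
  have e1 : ∀ a ∈ A1, nb G a ∩ (B1 ∪ B2) = nb G a ∩ B1 := by
    intro a ha
    ext w
    simp only [mem_inter, mem_union, mem_nb]
    constructor
    · rintro ⟨h, h' | h'⟩
      · exact ⟨h, h'⟩
      · exact absurd h (h12 a ha w h')
    · rintro ⟨h, h'⟩
      exact ⟨h, Or.inl h'⟩
  have e2 : ∀ a ∈ A2, nb G a ∩ (B1 ∪ B2) = nb G a ∩ B2 := by
    intro a ha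
    ext w
    simp only [mem_inter, mem_union, mem_nb]
    constructor
    · rintro ⟨h, h' | h'⟩
      · exact absurd h (h21 a ha w h')
      · exact ⟨h, h'⟩
    · rintro ⟨h, h'⟩
      exact ⟨h, Or.inr h'⟩
  rw [Finset.sum_congr rfl fun a ha => by rw [e1 a ha],
    Finset.sum_congr (s₁ := A2) rfl fun a ha => by rw [e2 a ha]]
  push_cast
  ring

/-- a minimal violating pair does not split -/
theorem min_split (hv : Viol G P g C D A B)
    (hmin : ∀ A' B', Viol G P g C D A' B' → A.card ≤ A'.card) {A1 A2 B1 B2 : Finset V}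
    (hA : A = A1 ∪ A2) (hAd : Disjoint A1 A2)
    (hBu : B = B1 ∪ B2) (hBd : Disjoint B1 B2) (h12 : ∀ a ∈ A1, ∀ w ∈ B2, ¬ G.Adj a w)
    (h21 : ∀ a ∈ A2, ∀ w ∈ B1, ¬ G.Adj a w) : A1 = ∅ ∨ A2 = ∅ := by
  by_contra hcon
  push_neg at hcon
  obtain ⟨c1, c2⟩ := hcon
  have p1 : 0 < A1.card := Finset.card_pos.2 c1
  have p2 : 0 < A2.card := Finset.card_pos.2 c2
  have hc : A.card = A1.card + A2.card := by rw [hA, Finset.card_union_of_disjoint hAd]
  have hs := Phi_split (P := P) (g := g) hv.2.1 hA hAd hBu hBd h12 h21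
  have hneg := hv.2.2
  rw [hs] at hneg
  have hAs : A1 ⊆ C ∧ A2 ⊆ C := by
    constructor
    · exact (Finset.subset_union_left.trans hA.symm.subset).trans hv.1
    · exact (Finset.subset_union_right.trans hA.symm.subset).trans hv.1
  have hBs : B1 ⊆ D ∧ B2 ⊆ D := by
    constructor
    · exact (Finset.subset_union_left.trans hBu.symm.subset).trans hv.2.1
    · exact (Finset.subset_union_right.trans hBu.symm.subset).trans hv.2.1
  rcases lt_or_ge (Phi G P g D A1 B1) 0 with h | h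
  · have := hmin A1 B1 ⟨hAs.1, hBs.1, h⟩
    omega
  · have := hmin A2 B2 ⟨hAs.2, hBs.2, by linarith⟩
    omega

end minimal

end Pool.Agent.Work.MP_db9399_px.helper35
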