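import Pool.Agent.Work.MP_db9399_px_helper35.TRA

/-! # TR, part B: the two sampling steps -/

set_option autoImplicit false
set_option linter.unusedSectionVars false

namespace Pool.Agent.Work.MP_db9399_px.helper35

open Finset Classical
open Pool.Agent.Work.MP_db9399_all (nb pr DepOnI PackI)

universe u

variable {V : Type u} [Fintype V] {G : SimpleGraph V}

/-- total misclassification cost -/
noncomputable def mis (θ q : ℝ) (D : Finset V) (S : V → Finset V) (R : Finset V) : ℝ :=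
  ∑ w ∈ D.filter (fun w => ¬ (θ < ((S w ∩ R).card : ℝ) ↔ θ * q < ((S w).card : ℝ))),
    |((S w).card : ℝ) - θ * q|

theorem mis_eq (θ q : ℝ) (D : Finset V) (S : V → Finset V) (R : Finset V) :
    mis θ q D S R = ∑ w ∈ D, (if ¬ (θ < ((S w ∩ R).card : ℝ) ↔ θ * q < ((S w).card : ℝ)) then
      |((S w).card : ℝ) - θ * q| else 0) := by
  unfold mis
  rw [Finset.sum_filter]

theorem step1 {P g θ q : ℝ} {D A R : Finset V} (hRA : R ⊆ A) (hθ : θ * q = P / 2) :
    Phi G P g D A (hit G θ R ∩ D) ≤ Phi G P g D A (optB G P D A) +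
      mis θ q D (fun w => nb G w ∩ A) R := by
  rw [Phi_D G P g (Finset.inter_subset_right), Phi_D G P g (optB_sub G P D A), mis_eq,
    sub_add_eq_add_sub, ← Finset.sum_add_distrib]
  refine sub_le_sub_right (Finset.sum_le_sum fun w hw => ?_) _
  have e1 : nb G w ∩ A ∩ R = nb G w ∩ R := by
    rw [Finset.inter_assoc, Finset.inter_eq_right.2 hRA]
  have e2 : (w ∈ hit G θ R ∩ D) ↔ θ < ((nb G w ∩ R).card : ℝ) := by
    simp [hit, hw]
  have e3 : (w ∈ optB G P D A) ↔ θ * q < ((nb G w ∩ A).card : ℝ) := by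
    simp [optB, hw, hθ]
  simp only [e1, e2, e3]
  rw [← hθ]
  by_cases h1 : θ < ((nb G w ∩ R).card : ℝ) <;> by_cases h2 : θ * q < ((nb G w ∩ A).card : ℝ)
  · simp [h1, h2]
  · simp only [h1, h2, if_true, if_false, iff_false, not_true, not_false_iff]
    have := abs_nonneg (((nb G w ∩ A).card : ℝ) - θ * q)
    have h3 := neg_abs_le (((nb G w ∩ A).card : ℝ) - θ * q)
    linarith
  · simp only [h1, h2, if_true, if_false, iff_true, not_false_iff]
    have h3 := le_abs_self (((nb G w ∩ A).card : ℝ) - θ * q)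
    linarith
  · simp [h1, h2]

theorem sum_sub_ite {C X : Finset V} (hX : X ⊆ C) (f : V → ℝ) :
    ∑ v ∈ X, f v = ∑ v ∈ C, (if v ∈ X then f v else 0) := by
  rw [← Finset.sum_filter]
  congr 1
  ext v
  simp only [mem_filter]
  exact ⟨fun h => ⟨hX h, h⟩, fun h => h.2⟩

theorem step2 {P g δ θ q : ℝ} {C D A B S : Finset V} (hSB : S ⊆ B) (hBD : B ⊆ D) (hAC : A ⊆ C)
    (hθ : θ * q = (1 / 2 - g) * P) (hD : ∀ v, |((nb G v ∩ D).card : ℝ) - P| ≤ δ * P)
    (hδ : 0 ≤ δ * P) :
    Phi G P g D (hit G θ S ∩ C) B ≤ Phi G P g D A B +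
      (mis θ q C (fun v => nb G v ∩ B) S + δ * P * (((hit G θ S ∩ C).card : ℝ) + A.card)) := by
  rw [Phi_A G P g hBD, Phi_A G P g hBD, mis_eq]
  have c1 : δ * P * (((hit G θ S ∩ C).card : ℝ) + A.card) =
      ∑ v ∈ C, ((if v ∈ hit G θ S ∩ C then δ * P else 0) + (if v ∈ A then δ * P else 0)) := by
    rw [Finset.sum_add_distrib, ← sum_sub_ite Finset.inter_subset_right (fun _ => δ * P),
      ← sum_sub_ite hAC (fun _ => δ * P), Finset.sum_const, Finset.sum_const, nsmul_eq_mul,
      nsmul_eq_mul]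
    ring
  rw [c1, ← Finset.sum_add_distrib, sum_sub_ite (C := C) (X := hit G θ S ∩ C)
    Finset.inter_subset_right, sum_sub_ite hAC, add_right_comm, ← Finset.sum_add_distrib]
  refine add_le_add (Finset.sum_le_sum fun v hv => ?_) le_rfl
  have e1 : nb G v ∩ B ∩ S = nb G v ∩ S := by
    rw [Finset.inter_assoc, Finset.inter_eq_right.2 hSB]
  have e2 : (v ∈ hit G θ S ∩ C) ↔ θ < ((nb G v ∩ S).card : ℝ) := by
    simp [hit, hv]
  simp only [e1, e2]
  have hd := hD v
  rw [abs_le] at hd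
  set s : ℝ := ((nb G v ∩ B).card : ℝ) with hs
  set dv : ℝ := ((nb G v ∩ D).card : ℝ) with hdv
  have a1 := le_abs_self (s - θ * q)
  have a2 := neg_abs_le (s - θ * q)
  have a3 := abs_nonneg (s - θ * q)
  by_cases h1 : θ < ((nb G v ∩ S).card : ℝ) <;> by_cases h2 : θ * q < s <;>
    by_cases h3 : v ∈ A <;>
    simp only [h1, h2, h3, if_true, if_false, iff_false, iff_true, not_true, not_false_iff,
      not_false_eq_true, iff_self, true_iff, false_iff, if_neg, if_pos] <;>
    nlinarith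

/-- size of `hit G θ S` -/
theorem hit_card {d : ℕ} (hd : ∀ v, (nb G v).card ≤ d) (θ : ℝ) (S C : Finset V) :
    θ * ((hit G θ S ∩ C).card : ℝ) ≤ d * S.card := by
  have h1 : θ * ((hit G θ S ∩ C).card : ℝ) ≤ ee G (hit G θ S ∩ C) S := by
    unfold ee
    rw [mul_comm, ← nsmul_eq_mul, ← Finset.sum_const]
    refine Finset.sum_le_sum fun v hv => ?_
    have := (Finset.mem_inter.1 hv).1
    unfold hit at this
    simp only [mem_filter, mem_univ, true_and] at this
    exact this.le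
  refine h1.trans ?_
  rw [ee_symm]
  unfold ee
  calc ∑ a ∈ S, ((nb G a ∩ (hit G θ S ∩ C)).card : ℝ) ≤ ∑ a ∈ S, (d : ℝ) := by
        refine Finset.sum_le_sum fun v _ => ?_
        exact_mod_cast (Finset.card_le_card Finset.inter_subset_left).trans (hd v)
    _ = d * S.card := by rw [Finset.sum_const, nsmul_eq_mul]; ring

theorem ee_le {P δ : ℝ} {A D : Finset V} (hD : ∀ v, |((nb G v ∩ D).card : ℝ) - P| ≤ δ * P) :
    ee G A D ≤ (1 + δ) * P * A.card ∧ (1 - δ) * P * A.card ≤ ee G A D := by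
  unfold ee
  constructor
  · calc ∑ a ∈ A, ((nb G a ∩ D).card : ℝ) ≤ ∑ a ∈ A, (1 + δ) * P := by
          refine Finset.sum_le_sum fun v _ => ?_
          have := (abs_le.1 (hD v)).2
          linarith
      _ = (1 + δ) * P * A.card := by rw [Finset.sum_const, nsmul_eq_mul]; ring
  · calc (1 - δ) * P * A.card = ∑ a ∈ A, (1 - δ) * P := by
          rw [Finset.sum_const, nsmul_eq_mul]; ring
      _ ≤ ∑ a ∈ A, ((nb G a ∩ D).card : ℝ) := by
          refine Finset.sum_le_sum fun v _ => ?_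
          have := (abs_le.1 (hD v)).1
          linarith

theorem ee_mono {A B B' : Finset V} (h : B ⊆ B') : ee G A B ≤ ee G A B' := by
  unfold ee
  refine Finset.sum_le_sum fun v _ => ?_
  exact_mod_cast Finset.card_le_card (Finset.inter_subset_inter_left h)

/-- lower bound for `Phi` by the size of `B` -/
theorem Phi_ge {P g : ℝ} {D A B : Finset V} :
    P / 2 * B.card - (1 / 2 + g) * P * A.card ≤ Phi G P g D A B := by
  unfold Phi ff ee
  have : (0 : ℝ) ≤ ∑ a ∈ A, ((nb G a ∩ (D \ B)).card : ℝ) := by positivity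
  linarith

/-- lower bound for `Phi` by the degrees -/
theorem Phi_ge' {P g δ : ℝ} {C D A B : Finset V} (hBD : B ⊆ D) (hAC : A ⊆ C)
    (hC : ∀ v, |((nb G v ∩ C).card : ℝ) - P| ≤ δ * P)
    (hD : ∀ v, |((nb G v ∩ D).card : ℝ) - P| ≤ δ * P) :
    (1 / 2 - g - δ) * P * A.card - (1 / 2 + δ) * P * B.card ≤ Phi G P g D A B := by
  rw [Phi_A G P g hBD]
  have h1 : ∑ a ∈ A, (((nb G a ∩ D).card : ℝ) - (nb G a ∩ B).card - (1 / 2 + g) * P) =
      ee G A D - ee G A B - (1 / 2 + g) * P * A.card := by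
    unfold ee
    rw [Finset.sum_sub_distrib, Finset.sum_sub_distrib, Finset.sum_const, nsmul_eq_mul]
    ring
  rw [h1]
  have h2 := (ee_le (A := A) hD).2
  have h3 : ee G A B ≤ (1 + δ) * P * B.card := by
    rw [ee_symm]
    exact (ee_mono hAC).trans (ee_le (A := B) hC).1
  linarith

end Pool.Agent.Work.MP_db9399_px.helper35
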