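import Pool.Agent.Work.MP_db9399_px_helper35.TRB

/-! # TR, part C: connectivity of the code -/

set_option autoImplicit false
set_option linter.unusedSectionVars false

namespace Pool.Agent.Work.MP_db9399_px.helper35

open Finset Classical
open Pool.Agent.Work.MP_db9399_all (nb pr DepOnI PackI)

universe u

variable {V : Type u} [Fintype V] {G : SimpleGraph V}

/-- equal or adjacent -/
def LA (G : SimpleGraph V) (a b : V) : Prop := b = a ∨ G.Adj a b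

theorem walk4 {a0 a1 a2 a3 a4 : V} (h0 : LA G a0 a1) (h1 : LA G a1 a2) (h2 : LA G a2 a3)
    (h3 : LA G a3 a4) : ∃ w : ℕ → V, LWalk G 4 w ∧ w 0 = a0 ∧ w 4 = a4 := by
  refine ⟨fun i => if i = 0 then a0 else if i = 1 then a1 else if i = 2 then a2 else
    if i = 3 then a3 else a4, ?_, by simp, by simp⟩
  intro i hi
  interval_cases i
  · simpa [LA] using h0
  · simpa [LA] using h1
  · simpa [LA] using h2
  · simpa [LA] using h3

theorem conn {P g δ : ℝ} {C D A R T S : Finset V} (hP : 0 < P) (hg : g ≤ 1 / 32)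
    (hδ : δ ≤ 1 / 10)
    (hD : ∀ v, (1 - δ) * P ≤ ((nb G v ∩ D).card : ℝ)) (hv : Viol G P g C D A (optB G P D A))
    (hmin : ∀ A' B', Viol G P g C D A' B' → A.card ≤ A'.card)
    (hRA : R ⊆ A) (hTA : T ⊆ A) (hw : ∀ w ∈ optB G P D A, ∃ r ∈ R ∪ T, G.Adj w r)
    (hS : ∀ s ∈ S, ∃ r ∈ R, G.Adj s r) (U1 : Finset V) (hU1 : U1 ⊆ R ∪ T ∪ S) {x : V}
    (hx : x ∈ U1) (hne : U1 ≠ R ∪ T ∪ S) :
    ∃ u ∈ U1, ∃ v ∈ R ∪ T ∪ S, v ∉ U1 ∧ ∃ w : ℕ → V, LWalk G 4 w ∧ w 0 = u ∧ w 4 = v := by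
  by_contra hcon
  push Not at hcon
  set B := optB G P D A with hB
  have hcon' : ∀ u ∈ U1, ∀ v ∈ R ∪ T ∪ S, v ∉ U1 → ∀ a1 a2 a3, LA G u a1 → LA G a1 a2 →
      LA G a2 a3 → LA G a3 v → False := by
    intro u hu v hv hv1 a1 a2 a3 h0 h1 h2 h3
    obtain ⟨w, w1, w2, w3⟩ := walk4 h0 h1 h2 h3
    exact hcon u hu v hv hv1 w w1 w2 w3
  have hRTA : R ∪ T ⊆ A := Finset.union_subset hRA hTA
  have hRTU : R ∪ T ⊆ R ∪ T ∪ S := Finset.subset_union_left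
  have hnbB : ∀ a ∈ A, ∃ w ∈ B, G.Adj a w := fun a ha => min_nb hP hg hδ hD hv hmin ha
  have hnbA : ∀ w ∈ B, ∃ a ∈ A, G.Adj w a := by
    intro w hw'
    obtain ⟨r, hr, h⟩ := hw w hw'
    exact ⟨r, hRTA hr, h⟩
  set B1 := B.filter (fun w => ∃ r ∈ R ∪ T, r ∈ U1 ∧ G.Adj w r) with hB1
  set A1 := A.filter (fun a => ∃ w ∈ B1, G.Adj a w) with hA1
  have mB1 : ∀ w, w ∈ B1 ↔ w ∈ B ∧ ∃ r ∈ R ∪ T, r ∈ U1 ∧ G.Adj w r := by
    intro w; simp [hB1]
  have mA1 : ∀ a, a ∈ A1 ↔ a ∈ A ∧ ∃ w ∈ B1, G.Adj a w := by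
    intro w; simp [hA1]
  -- vertices of `B1` see only the side 1
  have key1 : ∀ w ∈ B1, ∀ r ∈ R ∪ T, G.Adj w r → r ∈ U1 := by
    intro w hw1 r hr hwr
    by_contra hr1
    obtain ⟨_, r0, hr0, hr0U, hwr0⟩ := (mB1 w).1 hw1
    exact hcon' r0 hr0U r (hRTU hr) hr1 w r r (Or.inr hwr0.symm) (Or.inr hwr) (Or.inl rfl)
      (Or.inl rfl)
  have key2 : ∀ a w w', w ∈ B1 → w' ∈ B → w' ∉ B1 → G.Adj a w → G.Adj a w' → False := by
    intro a w w' hw1 hw' hw'1 haw haw'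
    obtain ⟨_, r0, hr0, hr0U, hwr0⟩ := (mB1 w).1 hw1
    obtain ⟨r, hr, hwr⟩ := hw w' hw'
    have hr1 : r ∉ U1 := fun h => hw'1 ((mB1 w').2 ⟨hw', r, hr, h, hwr⟩)
    exact hcon' r0 hr0U r (hRTU hr) hr1 w a w' (Or.inr hwr0.symm) (Or.inr haw.symm)
      (Or.inr haw') (Or.inr hwr)
  have hsplit := min_split (A1 := A1) (A2 := A \ A1) (B1 := B1) (B2 := B \ B1) hv hmin
    (by rw [Finset.union_sdiff_of_subset (Finset.filter_subset _ _)]) Finset.disjoint_sdiff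
    (by rw [Finset.union_sdiff_of_subset (Finset.filter_subset _ _)]) Finset.disjoint_sdiff
    (by
      intro a ha w hw2 haw
      obtain ⟨_, w1, hw1, haw1⟩ := (mA1 a).1 ha
      exact key2 a w1 w hw1 (Finset.mem_sdiff.1 hw2).1 (Finset.mem_sdiff.1 hw2).2 haw1 haw)
    (by
      intro a ha w hw1 haw
      exact (Finset.mem_sdiff.1 ha).2 ((mA1 a).2 ⟨(Finset.mem_sdiff.1 ha).1, w, hw1, haw⟩))
  rcases hsplit with h1 | h2
  · -- `A1 = ∅`
    have hno : ∀ r ∈ R ∪ T, r ∉ U1 := by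
      intro r hr hr1
      obtain ⟨w, hwB, hrw⟩ := hnbB r (hRTA hr)
      have hw1 : w ∈ B1 := (mB1 w).2 ⟨hwB, r, hr, hr1, hrw.symm⟩
      have : r ∈ A1 := (mA1 r).2 ⟨hRTA hr, w, hw1, hrw⟩
      rw [h1] at this
      exact absurd this (Finset.notMem_empty _)
    rcases Finset.mem_union.1 (hU1 hx) with h | h
    · exact hno x h hx
    · obtain ⟨r, hr, hxr⟩ := hS x h
      have hr' : r ∈ R ∪ T := Finset.mem_union_left _ hr
      exact hcon' x hx r (hRTU hr') (hno r hr') r r r (Or.inr hxr) (Or.inl rfl) (Or.inl rfl)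
        (Or.inl rfl)
  · -- `A \ A1 = ∅`
    have hA1A : ∀ a ∈ A, a ∈ A1 := by
      intro a ha
      by_contra hcon2
      have : a ∈ A \ A1 := Finset.mem_sdiff.2 ⟨ha, hcon2⟩
      rw [h2] at this
      exact absurd this (Finset.notMem_empty _)
    have hall : ∀ r ∈ R ∪ T, r ∈ U1 := by
      intro r hr
      obtain ⟨_, w, hw1, hrw⟩ := (mA1 r).1 (hA1A r (hRTA hr))
      exact key1 w hw1 r hr hrw.symm
    apply hne
    refine Finset.Subset.antisymm hU1 fun v hv => ?_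
    by_contra hv1
    rcases Finset.mem_union.1 hv with h | h
    · exact hv1 (hall v h)
    · obtain ⟨r, hr, hvr⟩ := hS v h
      have hr' : r ∈ R ∪ T := Finset.mem_union_left _ hr
      exact hcon' r (hall r hr') v hv hv1 v v v (Or.inr hvr.symm) (Or.inl rfl) (Or.inl rfl)
        (Or.inl rfl)

end Pool.Agent.Work.MP_db9399_px.helper35
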